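import Pool.Agent.Lev.All5

set_option autoImplicit false

/-!
If `A` and `B` are rational functions of degree at least two such that for all `n, m ≥ 1` the curve
`A^n(x) = B^m(y)` has a component of genus zero or one, then `A` and `B` are both special or they
have a common iterate.
-/

namespace Pool.Agent.Results.MP_005844_an.CommonIterate

open Filter Topology

/-- the composition `f ∘ g` of rational functions -/
noncomputable def comp (f g : RatFunc ℂ) : RatFunc ℂ :=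
  Polynomial.aeval g f.num / Polynomial.aeval g f.denom

/-- the degree of a rational function -/
noncomputable def deg (f : RatFunc ℂ) : ℕ := max f.num.natDegree f.denom.natDegree

/-- the `n`-th compositional iterate, `iter P 0 = z` -/
noncomputable def iter (P : RatFunc ℂ) (n : ℕ) : RatFunc ℂ := (comp P)^[n] RatFunc.X

/-- `f` is a Lattès map: there are a lattice `ℤω₁ + ℤω₂`, an affine map `z ↦ a z + b` with
`a ω₁, a ω₂` in the lattice and a nonconstant meromorphic function `θ` with periods `ω₁, ω₂` such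
that `f (θ z) = θ (a z + b)` -/
def Lattes (f : RatFunc ℂ) : Prop :=
  ∃ (ω₁ ω₂ a b : ℂ) (θ : ℂ → ℂ), LinearIndependent ℝ ![ω₁, ω₂] ∧
    (∃ m₁ n₁ m₂ n₂ : ℤ, a * ω₁ = (m₁ : ℂ) * ω₁ + (n₁ : ℂ) * ω₂ ∧
      a * ω₂ = (m₂ : ℂ) * ω₁ + (n₂ : ℂ) * ω₂) ∧
    MeromorphicOn θ Set.univ ∧
    (∀ z : ℂ, θ (z + ω₁) = θ z ∧ θ (z + ω₂) = θ z) ∧
    (∃ z : ℂ, DifferentiableAt ℂ θ z ∧ deriv θ z ≠ 0) ∧
    (∀ᶠ z in codiscrete ℂ, RatFunc.eval (RingHom.id ℂ) (θ z) f = θ (a * z + b))

/-- `f` is conjugate by a Möbius transformation `m` to `z ^ n`, `z ^ (-n)`, `T_n` or `-T_n` -/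
def PowerOrChebyshev (f : RatFunc ℂ) : Prop :=
  ∃ m : RatFunc ℂ, deg m = 1 ∧ ∃ n : ℕ,
    (comp m f = comp (RatFunc.X ^ n) m ∨ comp m f = comp (RatFunc.X ^ n)⁻¹ m ∨
      comp m f = comp (algebraMap (Polynomial ℂ) (RatFunc ℂ)
        (Polynomial.Chebyshev.T ℂ (n : ℤ))) m ∨
      comp m f = comp (-(algebraMap (Polynomial ℂ) (RatFunc ℂ)
        (Polynomial.Chebyshev.T ℂ (n : ℤ)))) m)

/-- special rational functions -/
def Special (f : RatFunc ℂ) : Prop := Lattes f ∨ PowerOrChebyshev f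

/-- `θ` is a nonconstant elliptic function for the lattice `ℤω₁ + ℤω₂`: it is meromorphic on the
plane and has the periods `ω₁, ω₂`, in other words it is a nonconstant rational function on the
elliptic curve `ℂ / (ℤω₁ + ℤω₂)` -/
def Elliptic (ω₁ ω₂ : ℂ) (θ : ℂ → ℂ) : Prop :=
  MeromorphicOn θ Set.univ ∧ (∀ z : ℂ, θ (z + ω₁) = θ z ∧ θ (z + ω₂) = θ z) ∧
    ¬ ∃ c : ℂ, ∀ᶠ z in codiscrete ℂ, θ z = c

/-- the curve `F(x) = G(y)` has a component parametrised by non-constant rational functions; for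
nonconstant `F, G` this means (Lüroth) that the curve `F(x) = G(y)` has a factor of genus `0` -/
def HasRationalFactor (F G : RatFunc ℂ) : Prop :=
  ∃ f g : RatFunc ℂ, 1 ≤ deg f ∧ 1 ≤ deg g ∧ comp F f = comp G g

/-- the curve `F(x) = G(y)` has a component parametrised by non-constant elliptic functions of one
elliptic curve; every component of genus `1` has such a parametrisation, since its normalisation is
an elliptic curve `ℂ / (ℤω₁ + ℤω₂)`, and conversely every component with such a parametrisation is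
the image of an elliptic curve, so it has genus `0` or `1` -/
def HasEllipticFactor (F G : RatFunc ℂ) : Prop :=
  ∃ (ω₁ ω₂ : ℂ) (θ₁ θ₂ : ℂ → ℂ), LinearIndependent ℝ ![ω₁, ω₂] ∧
    Elliptic ω₁ ω₂ θ₁ ∧ Elliptic ω₁ ω₂ θ₂ ∧
    ∀ᶠ z in codiscrete ℂ, RatFunc.eval (RingHom.id ℂ) (θ₁ z) F =
      RatFunc.eval (RingHom.id ℂ) (θ₂ z) G

/-- the curve `F(x) = G(y)` has a factor of genus `0` or `1` -/
def HasLowGenusFactor (F G : RatFunc ℂ) : Prop := HasRationalFactor F G ∨ HasEllipticFactor F G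

/-- Let `A` and `B` be rational functions of degree at least two such that for all `n, m ≥ 1` the
curve `A^n(x) = B^m(y)` has a factor of genus zero or one. Then either `A` and `B` are both special
or `A^k = B^l` for some `k, l ≥ 1`. -/
theorem result (A B : RatFunc ℂ) (hA : 2 ≤ deg A) (hB : 2 ≤ deg B)
    (h : ∀ n m : ℕ, 1 ≤ n → 1 ≤ m → HasLowGenusFactor (iter A n) (iter B m)) :
    (Special A ∧ Special B) ∨ ∃ k l : ℕ, 1 ≤ k ∧ 1 ≤ l ∧ iter A k = iter B l := by
  have key : ∀ f, Pool.Agent.Lev.Special f → Special f := by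
    rintro f (⟨ω₁, ω₂, a, b, θ, hh⟩ | ⟨m, hm, n, hh⟩)
    · exact Or.inl ⟨ω₁, ω₂, a, b, θ, hh⟩
    · exact Or.inr ⟨m, hm, n, hh⟩
  have := Pool.Agent.Lev.t_main5 A B hA hB (fun n m hn hm => by
    rcases h n m hn hm with h | ⟨ω₁, ω₂, θ₁, θ₂, hl, h1, h2, h3⟩
    · exact Or.inl h
    · exact Or.inr ⟨ω₁, ω₂, θ₁, θ₂, ⟨hl, h1.1, fun z => (h1.2.1 z).1, fun z => (h1.2.1 z).2, h1.2.2⟩,
        ⟨hl, h2.1, fun z => (h2.2.1 z).1, fun z => (h2.2.1 z).2, h2.2.2⟩, h3⟩)
  rcases this with ⟨h1, h2⟩ | ⟨k, l, hk, hl, hkl⟩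
  · exact Or.inl ⟨key A h1, key B h2⟩
  · exact Or.inr ⟨k, l, hk, hl, hkl⟩

end Pool.Agent.Results.MP_005844_an.CommonIterate
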